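import Mathlib

set_option autoImplicit false

/-!
# Project LK (helper356), GK17: the inequality E1 (helper499)
-/

namespace Pool.Agent.N499.LK.E1

theorem c4 {A B C : ℝ} (hA1 : 1 ≤ A) (hA2 : A ≤ 3 / 2) (hB1 : 5 / 24 ≤ B) (hB2 : B ≤ 1 / 2)
    (hC0 : 0 ≤ C) (hC1 : C ≤ 11 / 60) :
    -(27 / 100) ≤ -(2 * A ^ 3 * C + 3 * A ^ 2 * B ^ 2) / 11 := by
  have h1 : A ^ 3 ≤ (3 / 2) ^ 3 := by gcongr
  have h2 : A ^ 2 ≤ (3 / 2) ^ 2 := by gcongr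
  have h3 : B ^ 2 ≤ (1 / 2) ^ 2 := by gcongr
  have h4 : A ^ 3 * C ≤ (3 / 2) ^ 3 * (11 / 60) := by gcongr
  have h5 : A ^ 2 * B ^ 2 ≤ (3 / 2) ^ 2 * (1 / 2) ^ 2 := by gcongr
  linarith

theorem c3 {A B C : ℝ} (hA1 : 1 ≤ A) (hA2 : A ≤ 3 / 2) (hB1 : 5 / 24 ≤ B) 
    (hBA : B ≤ (A - 1 / 2) / 2) (hCB : C ≤ 2 / 3 * B - 3 / 20) :
    -(9 / 100) ≤ -(A ^ 2 * C + A * B ^ 2) / 2 + 2 / 11 * A ^ 3 * B := by
  have h1 : A ^ 2 * C ≤ A ^ 2 * (2 / 3 * B - 3 / 20) := by gcongr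
  have h2 : A ^ 2 * (2 / 3 * B - 3 / 20) / 2 + A * B ^ 2 / 2 - 2 / 11 * A ^ 3 * B ≤ 9 / 100 := by
    have h3 : B = (A - 1 / 2) / 2 - ((A - 1 / 2) / 2 - B) := by ring
    obtain ⟨g, hg⟩ : ∃ g, g = (A - 1 / 2) / 2 - B := ⟨_, rfl⟩
    have hg0 : 0 ≤ g := by linarith
    have hB' : B = (A - 1 / 2) / 2 - g := by linarith
    obtain ⟨a, ha⟩ : ∃ a, a = 3 / 2 - A := ⟨_, rfl⟩
    have ha0 : 0 ≤ a := by linarith
    have ha1 : a ≤ 1 / 2 := by linarith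
    have hA' : A = 3 / 2 - a := by linarith
    subst hB'
    subst hA'
    nlinarith [mul_nonneg ha0 hg0, mul_nonneg ha0 ha0, mul_nonneg hg0 hg0, mul_nonneg (mul_nonneg ha0 hg0) ha0, mul_nonneg (mul_nonneg ha0 ha0) ha0]
  linarith

theorem hT {η s : ℝ} (hη0 : 0 ≤ η) (hη1 : η ≤ 1 / 6) (hs0 : 0 ≤ s) (hs1 : 2 * s + η ≤ 1)
    {A B C : ℝ} (hA : A = 1 + s)
    (hB : B = (1 / 2 + s) * (1 - η) / 2) (hC : C = (1 / 2 + s) * (1 - η) ^ 2 / 3 - 3 / 20) :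
    0 ≤ (1 / 40 + (1 - η - 2 * s) / 24 + η / 12 + η * (1 - η - 2 * s) / 24 - η ^ 2 / 8) +
        11 / 50 * (-(2 * A * C + B ^ 2) / 2 + A ^ 2 * B / 2 - A ^ 4 / 22) - 29 / 4000 := by
  obtain ⟨δ, hδ⟩ : ∃ δ, δ = 1 - η - 2 * s := ⟨_, rfl⟩
  have hδ0 : 0 ≤ δ := by linarith
  have hδ1 : δ ≤ 1 := by linarith
  have hs : s = (1 - η - δ) / 2 := by linarith
  have h1 : (1 / 40 + (1 - η - 2 * s) / 24 + η / 12 + η * (1 - η - 2 * s) / 24 - η ^ 2 / 8) +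
        11 / 50 * (-(2 * A * C + B ^ 2) / 2 + A ^ 2 * B / 2 - A ^ 4 / 22) - 29 / 4000 =
      23 / 8000 + 1619 / 24000 * δ - 19 / 4800 * δ ^ 2 + δ ^ 3 / 1600 - δ ^ 4 / 1600 +
        2083 / 8000 * η - 289 / 4800 * (η * δ) - 13 / 4800 * (η * δ ^ 2) +
        7 / 1600 * (η * δ ^ 3) - 173 / 480 * η ^ 2 + 179 / 1600 * (η ^ 2 * δ) -
        η ^ 2 * δ ^ 2 / 120 + 553 / 4800 * η ^ 3 - 31 / 960 * (η ^ 3 * δ) -
        91 / 4800 * η ^ 4 := by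
    rw [hA, hB, hC, hs]
    ring
  rw [h1]
  have d2 : δ ^ 2 ≤ δ := by nlinarith
  have d3 : 0 ≤ δ ^ 3 := by positivity
  have d4 : δ ^ 4 ≤ δ := by
    have : δ ^ 4 = δ ^ 2 * δ ^ 2 := by ring
    nlinarith [sq_nonneg δ]
  have e1 : η * δ ≤ 1 / 6 * δ := by gcongr
  have e2 : η * δ ^ 2 ≤ 1 / 6 * δ := mul_le_mul hη1 d2 (sq_nonneg δ) (by norm_num)
  have e3 : 0 ≤ η * δ ^ 3 := by positivity
  have n2 : η ^ 2 ≤ 1 / 6 * η := by nlinarith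
  have f1 : 0 ≤ η ^ 2 * δ := by positivity
  have f2 : η ^ 2 * δ ^ 2 ≤ 1 / 6 * (1 / 6) * δ := by
    have g1 : η ^ 2 ≤ 1 / 6 * (1 / 6) := by nlinarith
    gcongr
  have f3 : 0 ≤ η ^ 3 := by positivity
  have f4 : η ^ 3 * δ ≤ 1 / 6 * δ := by
    have g1 : η ^ 3 ≤ 1 / 6 := by
      have g2 : η ^ 3 ≤ (1 / 6) ^ 3 := by gcongr
      linarith
    gcongr
  have f5 : η ^ 4 ≤ 1 / 6 * η := by
    have g1 : η ^ 4 = η ^ 3 * η := by ring
    have g2 : η ^ 3 ≤ 1 / 6 := by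
      have g2 : η ^ 3 ≤ (1 / 6) ^ 3 := by gcongr
      linarith
    rw [g1]
    gcongr
  linarith

theorem hH {p q h3 h4 y : ℝ} (hp : 0 ≤ p) (hT : 0 ≤ p + 11 / 50 * q - 29 / 4000)
    (hh3 : -(9 / 100) ≤ h3) (hh4 : -(27 / 100) ≤ h4) (hy0 : 0 ≤ y) (hy1 : y ≤ 11 / 50) :
    0 ≤ p + y * q + y ^ 2 * h3 + y ^ 3 * h4 := by
  have e1 : 0 ≤ 50 / 11 * y * (p + 11 / 50 * q - 29 / 4000) := by positivity
  have e2 : 0 ≤ (1 - 50 / 11 * y) * p := mul_nonneg (by linarith) hp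
  have e3 : y ^ 2 * (-(9 / 100)) ≤ y ^ 2 * h3 := mul_le_mul_of_nonneg_left hh3 (by positivity)
  have e4 : y ^ 3 * (-(27 / 100)) ≤ y ^ 3 * h4 := mul_le_mul_of_nonneg_left hh4 (by positivity)
  have e5 : y ^ 2 ≤ 11 / 50 * y := by nlinarith
  have e6 : y ^ 3 ≤ (11 / 50) ^ 2 * y := by
    have : y ^ 3 = y * y ^ 2 := by ring
    nlinarith
  nlinarith

/-- the polynomial inequality -/
theorem poly {η s y : ℝ} (hη0 : 0 ≤ η) (hη1 : η ≤ 1 / 6) (hs0 : 0 ≤ s) (hs1 : 2 * s + η ≤ 1)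
    (hy0 : 0 ≤ y) (hy1 : y ≤ 11 / 50) {A B C u : ℝ} (hA : A = 1 + s)
    (hB : B = (1 / 2 + s) * (1 - η) / 2) (hC : C = (1 / 2 + s) * (1 - η) ^ 2 / 3 - 3 / 20)
    (hu : u = y * (A - B * y + C * y ^ 2)) :
    (0 ≤ u ∧ u ≤ 7 / 20) ∧ 1 + u + u ^ 2 / 2 + u ^ 3 / 6 + u ^ 4 / 22 ≤
      1 + s * y + s * (s + η) / 2 * y ^ 2 + s * (s + η) * (s + 2 * η) / 6 * y ^ 3 +
        y * (1 + y / 2) := by
  have hs2 : s ≤ 1 / 2 := by linarith
  have hA1 : 1 ≤ A := by linarith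
  have hA2 : A ≤ 3 / 2 := by linarith
  have hB1 : 5 / 24 ≤ B := by rw [hB]; nlinarith
  have hB2 : B ≤ 1 / 2 := by rw [hB]; nlinarith
  have hC1 : C ≤ 11 / 60 := by rw [hC]; nlinarith [mul_nonneg hη0 hη0, mul_nonneg hs0 hη0]
  have hC2 : -(1 / 25) ≤ C := by
    have g1 : (25 : ℝ) / 36 ≤ (1 - η) ^ 2 := by nlinarith
    rw [hC]
    nlinarith
  have hc3 : 0 ≤ s * (s + η) * (s + 2 * η) / 6 := by positivity
  obtain ⟨w, hw⟩ : ∃ w, w = -B * y + C * y ^ 2 := ⟨_, rfl⟩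
  obtain ⟨v, hv⟩ : ∃ v, v = A + w := ⟨_, rfl⟩
  have huv : u = y * v := by rw [hu, hv, hw]; ring
  have hCy : C * y ≤ B := by nlinarith
  have hw0 : w ≤ 0 := by
    rw [hw]
    nlinarith
  have hy2 : y ^ 2 ≤ 1 / 20 := by nlinarith
  have hv0 : 0 ≤ v := by
    rw [hv, hw]
    nlinarith
  have hvA : v ≤ A := by linarith
  have hδ4 : 1 / 2 + s * (s + η) / 2 + B - A ^ 2 / 2 = (1 - η - 2 * s) / 4 := by
    rw [hA, hB]
    ring
  refine ⟨⟨?_, ?_⟩, ?_⟩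
  · rw [huv]
    exact mul_nonneg hy0 hv0
  · rw [huv]
    calc y * v ≤ 11 / 50 * (3 / 2) := mul_le_mul hy1 (hvA.trans hA2) hv0 (by norm_num)
      _ ≤ 7 / 20 := by norm_num
  rcases le_or_gt 0 C with hC0 | hC0
  · have hwB : -(B * y) ≤ w := by
      rw [hw]
      nlinarith [mul_nonneg hC0 (sq_nonneg y)]
    have hBy : B * y ≤ 1 / 2 := by nlinarith
    have hw2 : w ^ 2 ≤ B ^ 2 * y ^ 2 := by
      have g1 : (-w) ^ 2 ≤ (B * y) ^ 2 := pow_le_pow_left₀ (by linarith) (by linarith) 2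
      rw [neg_sq, mul_pow] at g1
      exact g1
    have hw3 : w ^ 3 ≤ 0 := by
      have : w ^ 3 = w * w ^ 2 := by ring
      rw [this]
      exact mul_nonpos_of_nonpos_of_nonneg hw0 (sq_nonneg w)
    have hv2 : v ^ 2 ≤ A ^ 2 + 2 * A * w + B ^ 2 * y ^ 2 := by
      have g1 : v ^ 2 = A ^ 2 + 2 * A * w + w ^ 2 := by rw [hv]; ring
      linarith
    have hv3 : v ^ 3 ≤ A ^ 3 + 3 * A ^ 2 * w + 3 * A * (B ^ 2 * y ^ 2) := by
      have h1 : v ^ 3 = A ^ 3 + 3 * A ^ 2 * w + 3 * A * w ^ 2 + w ^ 3 := by rw [hv]; ring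
      have h2 : 3 * A * w ^ 2 ≤ 3 * A * (B ^ 2 * y ^ 2) := by
        apply mul_le_mul_of_nonneg_left hw2
        linarith
      linarith
    have hv4 : v ^ 4 ≤ A ^ 4 + 4 * A ^ 3 * w + 6 * A ^ 2 * (B ^ 2 * y ^ 2) := by
      have h1 : v ^ 4 = A ^ 4 + 4 * A ^ 3 * w + 6 * A ^ 2 * w ^ 2 + w ^ 3 * (4 * A + w) := by
        rw [hv]; ring
      have h2 : 6 * A ^ 2 * w ^ 2 ≤ 6 * A ^ 2 * (B ^ 2 * y ^ 2) := by
        apply mul_le_mul_of_nonneg_left hw2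
        positivity
      have h3 : w ^ 3 * (4 * A + w) ≤ 0 := mul_nonpos_of_nonpos_of_nonneg hw3 (by linarith)
      linarith
    -- the coefficients
    have h3l : -(9 / 100) ≤ -(A ^ 2 * C + A * B ^ 2) / 2 + 2 / 11 * A ^ 3 * B := by
      refine c3 hA1 hA2 hB1 ?_ ?_
      · rw [hA, hB]
        nlinarith
      · rw [hB, hC]
        nlinarith [mul_nonneg (mul_nonneg (by linarith : (0 : ℝ) ≤ 1 / 2 + s)
          (by linarith : (0 : ℝ) ≤ 1 - η)) hη0]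
    have h4l : -(27 / 100) ≤ -(2 * A ^ 3 * C + 3 * A ^ 2 * B ^ 2) / 11 :=
      c4 hA1 hA2 hB1 hB2 hC0 hC1
    have h1e : s * (s + η) * (s + 2 * η) / 6 - C + A * B - A ^ 3 / 6 =
        1 / 40 + (1 - η - 2 * s) / 24 + η / 12 + η * (1 - η - 2 * s) / 24 - η ^ 2 / 8 := by
      rw [hA, hB, hC]
      ring
    have hp : 0 ≤ s * (s + η) * (s + 2 * η) / 6 - C + A * B - A ^ 3 / 6 := by
      rw [h1e]
      have g1 : 0 ≤ η * (1 - η - 2 * s) := mul_nonneg hη0 (by linarith)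
      have g2 : η ^ 2 ≤ 1 / 6 * η := by nlinarith
      linarith
    have hT' : 0 ≤ (s * (s + η) * (s + 2 * η) / 6 - C + A * B - A ^ 3 / 6) +
        11 / 50 * (-(2 * A * C + B ^ 2) / 2 + A ^ 2 * B / 2 - A ^ 4 / 22) - 29 / 4000 := by
      rw [h1e]
      exact hT hη0 hη1 hs0 hs1 hA hB hC
    have hF := hH hp hT' h3l h4l hy0 hy1
    have hL : 1 + u + u ^ 2 / 2 + u ^ 3 / 6 + u ^ 4 / 22 ≤ 1 + y * v +
        y ^ 2 * (A ^ 2 + 2 * A * w + B ^ 2 * y ^ 2) / 2 +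
        y ^ 3 * (A ^ 3 + 3 * A ^ 2 * w + 3 * A * (B ^ 2 * y ^ 2)) / 6 +
        y ^ 4 * (A ^ 4 + 4 * A ^ 3 * w + 6 * A ^ 2 * (B ^ 2 * y ^ 2)) / 22 := by
      rw [huv, mul_pow, mul_pow, mul_pow]
      gcongr
    refine hL.trans ?_
    have hid : 1 + s * y + s * (s + η) / 2 * y ^ 2 + s * (s + η) * (s + 2 * η) / 6 * y ^ 3 +
        y * (1 + y / 2) - (1 + y * v +
        y ^ 2 * (A ^ 2 + 2 * A * w + B ^ 2 * y ^ 2) / 2 +
        y ^ 3 * (A ^ 3 + 3 * A ^ 2 * w + 3 * A * (B ^ 2 * y ^ 2)) / 6 +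
        y ^ 4 * (A ^ 4 + 4 * A ^ 3 * w + 6 * A ^ 2 * (B ^ 2 * y ^ 2)) / 22) =
        y * (1 + s - A) + y ^ 2 * (1 / 2 + s * (s + η) / 2 + B - A ^ 2 / 2) +
        y ^ 3 * ((s * (s + η) * (s + 2 * η) / 6 - C + A * B - A ^ 3 / 6) +
          y * (-(2 * A * C + B ^ 2) / 2 + A ^ 2 * B / 2 - A ^ 4 / 22) +
          y ^ 2 * (-(A ^ 2 * C + A * B ^ 2) / 2 + 2 / 11 * A ^ 3 * B) +
          y ^ 3 * (-(2 * A ^ 3 * C + 3 * A ^ 2 * B ^ 2) / 11)) := by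
      rw [hv, hw]
      ring
    have h0 : y * (1 + s - A) = 0 := by rw [hA]; ring
    have h5 : 0 ≤ y ^ 2 * ((1 - η - 2 * s) / 4) := mul_nonneg (sq_nonneg y) (by linarith)
    have h6 := mul_nonneg (pow_nonneg hy0 3) hF
    rw [hδ4, h0] at hid
    linarith
  · have hs3 : s ≤ 3 / 20 := by
      rw [hC] at hC0
      have g1 : (25 : ℝ) / 36 ≤ (1 - η) ^ 2 := by nlinarith
      nlinarith
    have hA3 : A ≤ 23 / 20 := by linarith
    have hvB : v ≤ A - B * y := by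
      rw [hv, hw]
      nlinarith [sq_nonneg y]
    have hv2 : v ^ 2 ≤ A ^ 2 := by gcongr
    have hv3 : v ^ 3 ≤ A ^ 3 := by gcongr
    have hv4 : v ^ 4 ≤ A ^ 4 := by gcongr
    have hA3' : A ^ 3 ≤ (23 / 20) ^ 3 := by gcongr
    have hA4' : A ^ 4 ≤ (23 / 20) ^ 4 := by gcongr
    have hL : 1 + u + u ^ 2 / 2 + u ^ 3 / 6 + u ^ 4 / 22 ≤ 1 + y * (A - B * y) +
        y ^ 2 * A ^ 2 / 2 + y ^ 3 * (23 / 20) ^ 3 / 6 + y ^ 4 * (23 / 20) ^ 4 / 22 := by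
      rw [huv, mul_pow, mul_pow, mul_pow]
      have k3 := hv3.trans hA3'
      have k4 := hv4.trans hA4'
      gcongr
    refine hL.trans ?_
    have h5 : 0 ≤ y ^ 2 * ((1 - η - 2 * s) / 4 - y * (23 / 20) ^ 3 / 6 -
        y ^ 2 * (23 / 20) ^ 4 / 22) := by
      apply mul_nonneg (sq_nonneg y)
      linarith
    have h6 : 0 ≤ s * (s + η) * (s + 2 * η) / 6 * y ^ 3 := by positivity
    have hid : 1 + s * y + s * (s + η) / 2 * y ^ 2 + s * (s + η) * (s + 2 * η) / 6 * y ^ 3 +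
        y * (1 + y / 2) - (1 + y * (A - B * y) +
        y ^ 2 * A ^ 2 / 2 + y ^ 3 * (23 / 20) ^ 3 / 6 + y ^ 4 * (23 / 20) ^ 4 / 22) =
        y * (1 + s - A) + y ^ 2 * (1 / 2 + s * (s + η) / 2 + B - A ^ 2 / 2) +
        s * (s + η) * (s + 2 * η) / 6 * y ^ 3 - y ^ 3 * (23 / 20) ^ 3 / 6 -
        y ^ 4 * (23 / 20) ^ 4 / 22 := by
      ring
    have h0 : y * (1 + s - A) = 0 := by rw [hA]; ring
    rw [hδ4, h0] at hid
    have h7 : y ^ 2 * ((1 - η - 2 * s) / 4 - y * (23 / 20) ^ 3 / 6 -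
        y ^ 2 * (23 / 20) ^ 4 / 22) = y ^ 2 * ((1 - η - 2 * s) / 4) -
        y ^ 3 * (23 / 20) ^ 3 / 6 - y ^ 4 * (23 / 20) ^ 4 / 22 := by ring
    rw [h7] at h5
    linarith

theorem log_up {z : ℝ} (hz : 0 ≤ z) : Real.log (1 + z) ≤ z - z ^ 2 / 2 + z ^ 3 / 3 := by
  have hmono : MonotoneOn (fun z : ℝ => z - z ^ 2 / 2 + z ^ 3 / 3 - Real.log (1 + z))
      (Set.Ici 0) := by
    have hd : ∀ x : ℝ, 0 ≤ x → HasDerivAt
        (fun z : ℝ => z - z ^ 2 / 2 + z ^ 3 / 3 - Real.log (1 + z))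
        (1 - x + x ^ 2 - 1 / (1 + x)) x := by
      intro x hx
      have h1 : HasDerivAt (fun z : ℝ => Real.log (1 + z)) (1 / (1 + x)) x :=
        ((hasDerivAt_id x).const_add 1).log (by simp; linarith)
      have h2 : HasDerivAt (fun z : ℝ => z - z ^ 2 / 2 + z ^ 3 / 3) (1 - x + x ^ 2) x := by
        have a1 := hasDerivAt_id' x
        have a2 : HasDerivAt (fun z : ℝ => z ^ 2 / 2) x x := by
          refine ((hasDerivAt_pow 2 x).div_const 2).congr_deriv ?_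
          norm_num
        have a3 : HasDerivAt (fun z : ℝ => z ^ 3 / 3) (x ^ 2) x := by
          refine ((hasDerivAt_pow 3 x).div_const 3).congr_deriv ?_
          norm_num
        exact (a1.sub a2).add a3
      exact h2.sub h1
    refine monotoneOn_of_deriv_nonneg (convex_Ici 0) ?_ ?_ ?_
    · intro x hx
      exact (hd x hx).continuousAt.continuousWithinAt
    · intro x hx
      rw [interior_Ici] at hx
      exact (hd x (le_of_lt hx)).differentiableAt.differentiableWithinAt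
    · intro x hx
      rw [interior_Ici] at hx
      have hx0 : 0 < x := hx
      rw [(hd x hx0.le).deriv]
      have h3 : 1 - x + x ^ 2 - 1 / (1 + x) = x ^ 3 / (1 + x) := by
        field_simp
        ring
      rw [h3]
      positivity
  have h := hmono (Set.mem_Ici.2 le_rfl) (Set.mem_Ici.2 hz) hz
  simp only [add_zero, Real.log_one] at h
  norm_num at h
  linarith

theorem log_low {x : ℝ} (h0 : 0 ≤ x) (h1 : x < 1) :
    x + x ^ 2 / 2 + x ^ 3 / 3 ≤ -Real.log (1 - x) := by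
  have h2 := Real.hasSum_pow_div_log_of_abs_lt_one (x := x) (by rwa [abs_of_nonneg h0])
  have h3 := sum_le_hasSum (Finset.range 3) (fun i _ => by positivity) h2
  simp only [Finset.sum_range_succ, Finset.sum_range_zero] at h3
  norm_num at h3
  linarith

theorem exp_up {u : ℝ} (h0 : 0 ≤ u) (h1 : u ≤ 7 / 20) :
    Real.exp u ≤ 1 + u + u ^ 2 / 2 + u ^ 3 / 6 + u ^ 4 / 22 := by
  have h2 := Real.exp_bound' h0 (by linarith) (n := 5) (by norm_num)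
  simp only [Finset.sum_range_succ, Finset.sum_range_zero, Nat.factorial] at h2
  norm_num at h2
  have h3 : u ^ 5 ≤ 7 / 20 * u ^ 4 := by
    have : u ^ 5 = u * u ^ 4 := by ring
    rw [this]
    gcongr
  have h4 : 0 ≤ u ^ 4 := by positivity
  linarith

theorem exp_low {w : ℝ} (h0 : 0 ≤ w) : 1 + w + w ^ 2 / 2 + w ^ 3 / 6 ≤ Real.exp w := by
  have h := Real.sum_le_exp_of_nonneg h0 4
  simp only [Finset.sum_range_succ, Finset.sum_range_zero, Nat.factorial] at h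
  norm_num at h
  linarith

theorem rhs_low {η s y : ℝ} (hη0 : 0 < η) (hη1 : η ≤ 1 / 6) (hs0 : 0 ≤ s)
    (hy0 : 0 ≤ y) (hy1 : y ≤ 11 / 50) :
    1 + s * y + s * (s + η) / 2 * y ^ 2 + s * (s + η) * (s + 2 * η) / 6 * y ^ 3 ≤
      (1 - η * y) ^ (-(s / η)) := by
  have hx0 : 0 ≤ η * y := by positivity
  have hx1 : η * y < 1 := by nlinarith
  rw [Real.rpow_def_of_pos (by linarith)]
  obtain ⟨W, hW⟩ : ∃ W, W = s * y + s * η * y ^ 2 / 2 + s * η ^ 2 * y ^ 3 / 3 := ⟨_, rfl⟩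
  have hW1 : W ≤ Real.log (1 - η * y) * (-(s / η)) := by
    have h1 := log_low hx0 hx1
    have h2 : s / η * (η * y + (η * y) ^ 2 / 2 + (η * y) ^ 3 / 3) ≤
        s / η * (-Real.log (1 - η * y)) := by
      apply mul_le_mul_of_nonneg_left h1
      positivity
    have h3 : s / η * (η * y + (η * y) ^ 2 / 2 + (η * y) ^ 3 / 3) = W := by
      rw [hW]
      field_simp
    linarith
  have hW0 : 0 ≤ W := by rw [hW]; positivity
  refine le_trans ?_ (Real.exp_le_exp.2 hW1)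
  refine le_trans ?_ (exp_low hW0)
  have h1 : s ^ 2 * y ^ 2 + s ^ 2 * η * y ^ 3 ≤ W ^ 2 := by
    have h2 : W ^ 2 = s ^ 2 * y ^ 2 + s ^ 2 * η * y ^ 3 + (s * η * y ^ 2 / 2 +
        s * η ^ 2 * y ^ 3 / 3) ^ 2 + 2 * (s * y) * (s * η ^ 2 * y ^ 3 / 3) := by
      rw [hW]
      ring
    have h3 : 0 ≤ 2 * (s * y) * (s * η ^ 2 * y ^ 3 / 3) := by positivity
    have h4 : 0 ≤ (s * η * y ^ 2 / 2 + s * η ^ 2 * y ^ 3 / 3) ^ 2 := by positivity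
    linarith
  have h2 : s ^ 3 * y ^ 3 ≤ W ^ 3 := by
    rw [← mul_pow]
    have h3 : s * y ≤ W := by
      rw [hW]
      have : 0 ≤ s * η * y ^ 2 / 2 + s * η ^ 2 * y ^ 3 / 3 := by positivity
      linarith
    gcongr
  have h3 : 1 + s * y + s * (s + η) / 2 * y ^ 2 + s * (s + η) * (s + 2 * η) / 6 * y ^ 3 =
      1 + (s * y + s * η * y ^ 2 / 2 + s * η ^ 2 * y ^ 3 / 3) +
        (s ^ 2 * y ^ 2 + s ^ 2 * η * y ^ 3) / 2 + s ^ 3 * y ^ 3 / 6 := by ring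
  rw [h3, ← hW]
  linarith

end Pool.Agent.N499.LK.E1

namespace Pool.Agent.N499.LK

open E1 in
/-- GK17: upper bound of the right side -/
theorem E1 {η s y : ℝ} (hη0 : 0 < η) (hη1 : η ≤ 1 / 6) (hs0 : 0 ≤ s) (hs1 : 2 * s + η ≤ 1)
    (hy0 : 0 ≤ y) (hy1 : y ≤ 11 / 50) :
    Real.exp (y / 2 - 3 / 20 * y ^ 3) * (1 + (1 - η) * y) ^ ((1 / 2 + s) / (1 - η)) ≤
      (1 - η * y) ^ (-(s / η)) + y * (1 + y / 2) := by
  have hz0 : 0 ≤ (1 - η) * y := mul_nonneg (by linarith) hy0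
  have h1η : 0 < 1 - η := by linarith
  obtain ⟨⟨hu0, hu1⟩, hp⟩ := poly (u := y * ((1 + s) - (1 / 2 + s) * (1 - η) / 2 * y +
    ((1 / 2 + s) * (1 - η) ^ 2 / 3 - 3 / 20) * y ^ 2)) hη0.le hη1 hs0 hs1 hy0 hy1 rfl rfl rfl rfl
  rw [Real.rpow_def_of_pos (by linarith), ← Real.exp_add]
  have hlog := log_up hz0
  have h2 : y / 2 - 3 / 20 * y ^ 3 + Real.log (1 + (1 - η) * y) * ((1 / 2 + s) / (1 - η)) ≤
      y * ((1 + s) - (1 / 2 + s) * (1 - η) / 2 * y +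
        ((1 / 2 + s) * (1 - η) ^ 2 / 3 - 3 / 20) * y ^ 2) := by
    have h3 : Real.log (1 + (1 - η) * y) * ((1 / 2 + s) / (1 - η)) ≤
        ((1 - η) * y - ((1 - η) * y) ^ 2 / 2 + ((1 - η) * y) ^ 3 / 3) *
          ((1 / 2 + s) / (1 - η)) := by
      apply mul_le_mul_of_nonneg_right hlog
      positivity
    have h4 : ((1 - η) * y - ((1 - η) * y) ^ 2 / 2 + ((1 - η) * y) ^ 3 / 3) *
          ((1 / 2 + s) / (1 - η)) = (1 / 2 + s) * (y - (1 - η) * y ^ 2 / 2 +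
          (1 - η) ^ 2 * y ^ 3 / 3) := by
      field_simp
    rw [h4] at h3
    refine (add_le_add_right h3 _).trans (le_of_eq ?_)
    ring
  refine (Real.exp_le_exp.2 h2).trans ((exp_up hu0 hu1).trans (hp.trans ?_))
  have h5 := rhs_low hη0 hη1 hs0 hy0 hy1
  linarith

end Pool.Agent.N499.LK
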